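import Mathlib

/-! Permutations of `Fin 8` coded by natural numbers, and the finite checks. -/

namespace Pool.Agent.Lib.MP_19cc1b_al

def app (c i : ℕ) : ℕ := c / 8 ^ i % 8

def mulc (a b : ℕ) : ℕ :=
  app a (app b 0) + 8 * (app a (app b 1) + 8 * (app a (app b 2) + 8 * (app a (app b 3) +
    8 * (app a (app b 4) + 8 * (app a (app b 5) + 8 * (app a (app b 6) + 8 * app a (app b 7)))))))

def onec : ℕ := 16434824

def powc (a : ℕ) : ℕ → ℕ
  | 0 => onec
  | n + 1 => mulc (powc a n) a

def code (σ : Equiv.Perm (Fin 8)) : ℕ :=
  (σ 0).val + 8 * ((σ 1).val + 8 * ((σ 2).val + 8 * ((σ 3).val +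
    8 * ((σ 4).val + 8 * ((σ 5).val + 8 * ((σ 6).val + 8 * (σ 7).val))))))

theorem app_code (σ : Equiv.Perm (Fin 8)) (i : Fin 8) : app (code σ) i.val = (σ i).val := by
  have h0 := (σ 0).isLt
  have h1 := (σ 1).isLt
  have h2 := (σ 2).isLt
  have h3 := (σ 3).isLt
  have h4 := (σ 4).isLt
  have h5 := (σ 5).isLt
  have h6 := (σ 6).isLt
  have h7 := (σ 7).isLt
  fin_cases i
  · show code σ / 1 % 8 = (σ 0).val
    simp only [code]; omega
  · show code σ / 8 % 8 = (σ 1).val
    simp only [code]; omega
  · show code σ / 64 % 8 = (σ 2).val
    simp only [code]; omega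
  · show code σ / 512 % 8 = (σ 3).val
    simp only [code]; omega
  · show code σ / 4096 % 8 = (σ 4).val
    simp only [code]; omega
  · show code σ / 32768 % 8 = (σ 5).val
    simp only [code]; omega
  · show code σ / 262144 % 8 = (σ 6).val
    simp only [code]; omega
  · show code σ / 2097152 % 8 = (σ 7).val
    simp only [code]; omega

theorem code_mul (σ τ : Equiv.Perm (Fin 8)) : code (σ * τ) = mulc (code σ) (code τ) := by
  have h : ∀ i : Fin 8, app (code σ) (app (code τ) i.val) = ((σ * τ) i).val := by
    intro i
    rw [app_code, app_code]; rfl
  have h0 := h 0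
  have h1 := h 1
  have h2 := h 2
  have h3 := h 3
  have h4 := h 4
  have h5 := h 5
  have h6 := h 6
  have h7 := h 7
  simp only [mulc]
  change app (code σ) (app (code τ) 0) = _ at h0
  change app (code σ) (app (code τ) 1) = _ at h1
  change app (code σ) (app (code τ) 2) = _ at h2
  change app (code σ) (app (code τ) 3) = _ at h3
  change app (code σ) (app (code τ) 4) = _ at h4
  change app (code σ) (app (code τ) 5) = _ at h5
  change app (code σ) (app (code τ) 6) = _ at h6
  change app (code σ) (app (code τ) 7) = _ at h7
  rw [h0, h1, h2, h3, h4, h5, h6, h7]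
  rfl

theorem code_one : code 1 = onec := by decide

theorem code_inj : Function.Injective code := by
  intro σ τ h
  ext i
  rw [← app_code, ← app_code, h]

theorem code_pow (σ : Equiv.Perm (Fin 8)) (n : ℕ) : code (σ ^ n) = powc (code σ) n := by
  induction n with
  | zero => simpa [powc] using code_one
  | succ n ih => rw [pow_succ, code_mul, ih]; rfl

/-- Boolean test that a number codes a permutation. -/
def isPermc (c : ℕ) : Bool :=
  decide (c < 8 ^ 8) && (List.range 8).all fun i => (List.range 8).all fun j =>
    decide (app c i = app c j → i = j)

theorem exists_code (c : ℕ) (h : isPermc c = true) : ∃ σ : Equiv.Perm (Fin 8), code σ = c := by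
  simp only [isPermc, Bool.and_eq_true, decide_eq_true_eq, List.all_eq_true, List.mem_range] at h
  obtain ⟨hc, hinj⟩ := h
  let f : Fin 8 → Fin 8 := fun i => ⟨app c i.val, Nat.mod_lt _ (by norm_num)⟩
  have hf : Function.Injective f := by
    intro i j hij
    apply Fin.ext
    exact hinj i.val i.isLt j.val j.isLt (congrArg Fin.val hij)
  refine ⟨Equiv.ofBijective f (Finite.injective_iff_bijective.mp hf), ?_⟩
  simp only [code, Equiv.ofBijective_apply, f, app]
  norm_num at hc ⊢
  omega

def lA : List ℕ := [3099600, 3501792, 4073328, 4619160, 5622904, 6009696, 7072520, 7542136,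
  7665840, 8863400, 9032688, 10413144, 11644808, 12130776, 12369168, 12932920, 13609064, 13824720,
  15342824, 15521184, 16434824]
def lB : List ℕ := [9926280, 9954504, 11760840, 11789960, 14571144, 14599368, 16405704, 16434824]
def lC : List ℕ := [371511, 2178540, 5015934, 6823845, 9925825, 11788371, 14570010, 16434824]
def lS : List ℕ := [342391, 681597, 1007370, 1178793, 1361374, 1809108, 2007971, 2206526, 2870595,
  3077172, 3168151, 3501792, 3813866, 4130973, 4408047, 4619160, 4988389, 5422662, 5736241, 5822523,
  6152524, 6482385, 6803622, 6852524, 7542136, 7744527, 7959301, 8145522, 8631693, 8817914, 9032688,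
  9235079, 9924691, 9973593, 10294830, 10624691, 10954692, 11040974, 11354553, 11788826, 12158055,
  12369168, 12646242, 12963349, 13275423, 13609064, 13700043, 13906620, 14570689, 14769244,
  14968107, 15415841, 15598422, 15769845, 16095618, 16434824]
def lV : List ℕ := [342391, 2206526, 4988389, 6852524, 9924691, 11788826, 14570689, 16434824]

def closedc (l : List ℕ) : Bool :=
  l.contains onec && l.all isPermc && l.all fun a => l.all fun b => l.contains (mulc a b)

def prodc (l m : List ℕ) : List ℕ := l.flatMap fun a => m.map fun b => mulc a b

def permc (l m : List ℕ) : Bool := (prodc l m).all fun c => (prodc m l).contains c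

def noSchc (l : List ℕ) : Bool :=
  (l.filter fun x => powc x 7 == onec && x != onec).all fun x =>
    (l.filter fun t => mulc t t == onec && t != onec).all fun t =>
      (List.range 7).any fun i =>
        let u := mulc t (mulc (powc x i) (mulc t (powc x (7 - i))))
        powc u 3 == onec && u != onec

theorem closed_A : closedc lA = true := by decide +kernel
theorem closed_B : closedc lB = true := by decide +kernel
theorem closed_C : closedc lC = true := by decide +kernel
theorem closed_S : closedc lS = true := by decide +kernel
theorem closed_V : closedc lV = true := by decide +kernel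
theorem perm_AB : permc lA lB = true := by decide +kernel
theorem perm_BA : permc lB lA = true := by decide +kernel
theorem perm_AC : permc lA lC = true := by decide +kernel
theorem perm_CA : permc lC lA = true := by decide +kernel
theorem perm_BC : permc lB lC = true := by decide +kernel
theorem perm_CB : permc lC lB = true := by decide +kernel
theorem noSch_AB : noSchc (prodc lA lB) = true := by decide +kernel
theorem noSch_AC : noSchc (prodc lA lC) = true := by decide +kernel
theorem noSch_BC : noSchc (prodc lB lC) = true := by decide +kernel

theorem S_sub : (lS.all fun s => (prodc (prodc lA lB) lC).contains s) = true := by decide +kernel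
theorem S_nodup : lS.Nodup := by decide +kernel
theorem V_nodup : lV.Nodup := by decide +kernel
theorem V_sub : (lV.all fun v => lS.contains v) = true := by decide +kernel
theorem S_center : (lS.all fun s => s == onec || lS.any fun t => mulc s t != mulc t s) = true := by
  decide +kernel
theorem V_normal : (lS.all fun s => lV.all fun v => lV.any fun w => mulc s v == mulc w s) = true := by
  decide +kernel
theorem V_comm : (lV.all fun s => lV.all fun t => mulc s t == mulc t s) = true := by
  decide +kernel
theorem S_commutator : (lS.all fun s => lS.all fun t =>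
    lV.any fun w => mulc s t == mulc w (mulc t s)) = true := by
  decide +kernel
theorem S_gen1 : (lS.all fun x => lV.contains x || lV.all fun v => v == onec || lV.all fun u =>
    u == onec || (List.range 7).any fun i => mulc (powc x i) v == mulc u (powc x i)) = true := by
  decide +kernel
theorem S_gen2 : (lS.all fun x => lV.contains x || lS.all fun s =>
    (List.range 7).any fun i => lV.any fun u => s == mulc u (powc x i)) = true := by
  decide +kernel

end Pool.Agent.Lib.MP_19cc1b_al
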