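import Mathlib

namespace Pool.Agent.Lib.MP_19cc1b_al

/-- A Schmidt group: a non-nilpotent group all of whose proper subgroups are nilpotent. -/
def IsSchmidt (S : Type) [Group S] : Prop :=
  ¬ Group.IsNilpotent S ∧ ∀ T : Subgroup S, T ≠ ⊤ → Group.IsNilpotent T

/-- A Schmidt `(p,q)`-group: a Schmidt group `S` whose set of prime divisors of the order is
`{p,q}` and whose Sylow `p`-subgroup is normal. -/
def IsSchmidtPQ (p q : ℕ) (S : Type) [Group S] : Prop :=
  IsSchmidt S ∧ (Nat.card S).primeFactors = {p, q} ∧ ∃ P : Sylow p S, (P : Subgroup S).Normal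

end Pool.Agent.Lib.MP_19cc1b_al
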