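import Pool.Agent.Lib.MP_19cc1b_al.Defs
import Pool.Agent.Lib.MP_19cc1b_al.Codes

namespace Pool.Agent.Lib.MP_19cc1b_al

open scoped Pointwise

abbrev Om : Type := Equiv.Perm (Fin 8)

theorem closedc_spec {l : List ℕ} (h : closedc l = true) :
    onec ∈ l ∧ (∀ c ∈ l, ∃ σ : Om, code σ = c) ∧ ∀ a ∈ l, ∀ b ∈ l, mulc a b ∈ l := by
  simp only [closedc, Bool.and_eq_true, List.all_eq_true, List.contains_iff_mem] at h
  exact ⟨h.1.1, fun c hc => exists_code c (h.1.2 c hc), h.2⟩

/-- The subgroup of permutations whose code lies in a closed list. -/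
def sub (l : List ℕ) (h : closedc l = true) : Subgroup Om where
  carrier := {σ | code σ ∈ l}
  one_mem' := by
    show code 1 ∈ l
    rw [code_one]; exact (closedc_spec h).1
  mul_mem' := by
    intro a b ha hb
    show code (a * b) ∈ l
    rw [code_mul]; exact (closedc_spec h).2.2 _ ha _ hb
  inv_mem' := by
    intro a ha
    have hp : ∀ n : ℕ, code (a ^ n) ∈ l := by
      intro n
      induction n with
      | zero => rw [pow_zero, code_one]; exact (closedc_spec h).1
      | succ n ih => rw [pow_succ, code_mul]; exact (closedc_spec h).2.2 _ ih _ ha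
    have : a⁻¹ = a ^ (orderOf a - 1) := by
      have hpos := orderOf_pos a
      rw [inv_eq_iff_mul_eq_one, ← pow_succ', Nat.sub_add_cancel hpos, pow_orderOf_eq_one]
    show code a⁻¹ ∈ l
    rw [this]; exact hp _

theorem mem_sub {l : List ℕ} {h : closedc l = true} {σ : Om} : σ ∈ sub l h ↔ code σ ∈ l := Iff.rfl

theorem mem_prodc {l m : List ℕ} {c : ℕ} : c ∈ prodc l m ↔ ∃ a ∈ l, ∃ b ∈ m, mulc a b = c := by
  simp [prodc]

theorem swap_of_permc {l m : List ℕ} (hl : closedc l = true) (hm : closedc m = true)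
    (h : permc l m = true) {a b : Om} (ha : a ∈ sub l hl) (hb : b ∈ sub m hm) :
    ∃ b' ∈ sub m hm, ∃ a' ∈ sub l hl, a * b = b' * a' := by
  simp only [permc, List.all_eq_true, List.contains_iff_mem] at h
  obtain ⟨y, hy, x, hx, hxy⟩ := mem_prodc.mp (h _ (mem_prodc.mpr ⟨_, ha, _, hb, rfl⟩))
  obtain ⟨b', rfl⟩ := (closedc_spec hm).2.1 y hy
  obtain ⟨a', rfl⟩ := (closedc_spec hl).2.1 x hx
  refine ⟨b', hy, a', hx, code_inj ?_⟩
  rw [code_mul, code_mul, hxy]

def gA : Subgroup Om := sub lA closed_A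
def gB : Subgroup Om := sub lB closed_B
def gC : Subgroup Om := sub lC closed_C
def gS : Subgroup Om := sub lS closed_S

theorem sAB {a b : Om} (ha : a ∈ gA) (hb : b ∈ gB) : ∃ b' ∈ gB, ∃ a' ∈ gA, a * b = b' * a' :=
  swap_of_permc _ _ perm_AB ha hb
theorem sBA {a b : Om} (ha : a ∈ gB) (hb : b ∈ gA) : ∃ b' ∈ gA, ∃ a' ∈ gB, a * b = b' * a' :=
  swap_of_permc _ _ perm_BA ha hb
theorem sAC {a b : Om} (ha : a ∈ gA) (hb : b ∈ gC) : ∃ b' ∈ gC, ∃ a' ∈ gA, a * b = b' * a' :=
  swap_of_permc _ _ perm_AC ha hb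
theorem sCA {a b : Om} (ha : a ∈ gC) (hb : b ∈ gA) : ∃ b' ∈ gA, ∃ a' ∈ gC, a * b = b' * a' :=
  swap_of_permc _ _ perm_CA ha hb
theorem sBC {a b : Om} (ha : a ∈ gB) (hb : b ∈ gC) : ∃ b' ∈ gC, ∃ a' ∈ gB, a * b = b' * a' :=
  swap_of_permc _ _ perm_BC ha hb
theorem sCB {a b : Om} (ha : a ∈ gC) (hb : b ∈ gB) : ∃ b' ∈ gB, ∃ a' ∈ gC, a * b = b' * a' :=
  swap_of_permc _ _ perm_CB ha hb

/-- The product `ABC`, which is the affine group of order 1344. -/
def gG : Subgroup Om where
  carrier := {g | ∃ a ∈ gA, ∃ b ∈ gB, ∃ c ∈ gC, g = a * b * c}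
  one_mem' := ⟨1, one_mem _, 1, one_mem _, 1, one_mem _, by simp⟩
  mul_mem' := by
    rintro _ _ ⟨a, ha, b, hb, c, hc, rfl⟩ ⟨a', ha', b', hb', c', hc', rfl⟩
    obtain ⟨a1, ha1, c1, hc1, h1⟩ := sCA hc ha'
    obtain ⟨a2, ha2, b2, hb2, h2⟩ := sBA hb ha1
    obtain ⟨b3, hb3, c3, hc3, h3⟩ := sCB hc1 hb'
    refine ⟨a * a2, mul_mem ha ha2, b2 * b3, mul_mem hb2 hb3, c3 * c', mul_mem hc3 hc', ?_⟩
    calc a * b * c * (a' * b' * c') = a * b * (c * a') * b' * c' := by group
      _ = a * (b * a1) * (c1 * b') * c' := by rw [h1]; group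
      _ = a * a2 * (b2 * b3) * (c3 * c') := by rw [h2, h3]; group
  inv_mem' := by
    rintro _ ⟨a, ha, b, hb, c, hc, rfl⟩
    obtain ⟨a1, ha1, b1, hb1, h1⟩ := sBA (inv_mem hb) (inv_mem ha)
    obtain ⟨a2, ha2, c2, hc2, h2⟩ := sCA (inv_mem hc) ha1
    obtain ⟨b3, hb3, c3, hc3, h3⟩ := sCB hc2 hb1
    refine ⟨a2, ha2, b3, hb3, c3, hc3, ?_⟩
    calc (a * b * c)⁻¹ = c⁻¹ * (b⁻¹ * a⁻¹) := by group
      _ = (c⁻¹ * a1) * b1 := by rw [h1]; group
      _ = a2 * (c2 * b1) := by rw [h2]; group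
      _ = a2 * b3 * c3 := by rw [h3]; group

theorem gA_le : gA ≤ gG := fun a ha => ⟨a, ha, 1, one_mem _, 1, one_mem _, by simp⟩
theorem gB_le : gB ≤ gG := fun a ha => ⟨1, one_mem _, a, ha, 1, one_mem _, by simp⟩
theorem gC_le : gC ≤ gG := fun a ha => ⟨1, one_mem _, 1, one_mem _, a, ha, by simp⟩

theorem gS_le : gS ≤ gG := by
  intro s hs
  have h := S_sub
  simp only [List.all_eq_true, List.contains_iff_mem] at h
  obtain ⟨x, hx, z, hz, hxz⟩ := mem_prodc.mp (h _ hs)
  obtain ⟨u, hu, y, hy, rfl⟩ := mem_prodc.mp hx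
  obtain ⟨a, rfl⟩ := (closedc_spec closed_A).2.1 u hu
  obtain ⟨b, rfl⟩ := (closedc_spec closed_B).2.1 y hy
  obtain ⟨c, rfl⟩ := (closedc_spec closed_C).2.1 z hz
  refine ⟨a, hu, b, hy, c, hz, code_inj ?_⟩
  rw [code_mul, code_mul, hxz]

/-- What a Schmidt `(2,7)`-group contains. -/
theorem elements_of_schmidt (X : Type) [Group X] [Finite X] (h : IsSchmidtPQ 2 7 X) :
    ∃ x t : X, orderOf x = 7 ∧ orderOf t = 2 ∧
      ∀ y : X, ∃ k : ℕ, (t * (y * t * y⁻¹)) ^ 2 ^ k = 1 := by
  obtain ⟨-, hpf, P, hP⟩ := h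
  have : Fact (Nat.Prime 2) := ⟨by norm_num⟩
  have : Fact (Nat.Prime 7) := ⟨by norm_num⟩
  have h7 : 7 ∣ Nat.card X := Nat.dvd_of_mem_primeFactors (by rw [hpf]; simp)
  have h2 : 2 ∣ Nat.card X := Nat.dvd_of_mem_primeFactors (by rw [hpf]; simp)
  obtain ⟨x, hx⟩ := exists_prime_orderOf_dvd_card' 7 h7
  obtain ⟨t, ht⟩ := exists_prime_orderOf_dvd_card' 2 h2
  have htP : t ∈ (P : Subgroup X) := by
    have hz : IsPGroup 2 (Subgroup.zpowers t) := by
      apply IsPGroup.of_card (n := 1)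
      rw [Nat.card_zpowers, ht, pow_one]
    obtain ⟨Q, hQ⟩ := hz.exists_le_sylow
    have := Sylow.unique_of_normal P hP
    have : Q = P := Subsingleton.elim _ _
    rw [← this]
    exact hQ (Subgroup.mem_zpowers t)
  refine ⟨x, t, hx, ht, fun y => ?_⟩
  have hm : t * (y * t * y⁻¹) ∈ (P : Subgroup X) := mul_mem htP (hP.conj_mem t htP y)
  obtain ⟨k, hk⟩ := P.isPGroup' ⟨_, hm⟩
  exact ⟨k, by simpa using congrArg Subtype.val hk⟩

theorem no_schmidt {l : List ℕ} (hl : noSchc l = true) (X : Type) [Group X] [Finite X]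
    (f : X →* Om) (hf : Function.Injective f) (hX : ∀ x, code (f x) ∈ l) :
    ¬ IsSchmidtPQ 2 7 X := by
  intro h
  obtain ⟨x, t, hx, ht, hxt⟩ := elements_of_schmidt X h
  simp only [noSchc, List.all_eq_true, List.mem_filter, Bool.and_eq_true, beq_iff_eq, bne_iff_ne,
    List.any_eq_true, List.mem_range] at hl
  have hcode : ∀ y : X, code (f y) = onec ↔ y = 1 := by
    intro y
    rw [← code_one, ← map_one f]
    exact ⟨fun h => hf (code_inj h), fun h => by rw [h]⟩
  have hx7 : x ^ 7 = 1 := by rw [← hx]; exact pow_orderOf_eq_one x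
  have ht2 : t * t = 1 := by rw [← pow_two, ← ht]; exact pow_orderOf_eq_one t
  obtain ⟨i, hi, h3, hne⟩ := hl (code (f x)) ⟨hX x, by
      rw [← code_pow, ← map_pow, hcode]; exact hx7, by
      rw [Ne, hcode]; rintro rfl; simp at hx⟩ (code (f t)) ⟨hX t, by
      rw [← code_mul, ← map_mul, hcode]; exact ht2, by
      rw [Ne, hcode]; rintro rfl; simp at ht⟩
  have hinv : x ^ (7 - i) = (x ^ i)⁻¹ := by
    rw [eq_inv_iff_mul_eq_one, ← pow_add, Nat.sub_add_cancel hi.le, hx7]
  simp only [← code_pow, ← map_pow, ← code_mul, ← map_mul, hcode, Ne, hinv] at h3 hne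
  obtain ⟨k, hk⟩ := hxt (x ^ i)
  rw [mul_assoc] at hk
  apply hne
  have hd3 := orderOf_dvd_of_pow_eq_one h3
  have hd2 := orderOf_dvd_of_pow_eq_one hk
  have hcop : Nat.Coprime 3 (2 ^ k) := Nat.Coprime.pow_right k (by norm_num)
  exact orderOf_eq_one_iff.mp (Nat.eq_one_of_dvd_coprimes hcop hd3 hd2)

theorem card_of_codes {l : List ℕ} (hn : l.Nodup) (X : Type) (φ : X → ℕ)
    (hφ : Function.Injective φ) (h1 : ∀ x, φ x ∈ l) (h2 : ∀ c ∈ l, ∃ x, φ x = c) :
    Nat.card X = l.length := by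
  have e : X ≃ {c // c ∈ l.toFinset} :=
    Equiv.ofBijective (fun x => ⟨φ x, List.mem_toFinset.mpr (h1 x)⟩)
      ⟨fun x y h => hφ (congrArg Subtype.val h), fun c => by
        obtain ⟨x, hx⟩ := h2 c.1 (List.mem_toFinset.mp c.2)
        exact ⟨x, Subtype.ext hx⟩⟩
  rw [Nat.card_congr e, Nat.card_eq_fintype_card, Fintype.card_coe, List.toFinset_card_of_nodup hn]

theorem is_schmidt (X : Type) [Group X] [Finite X]
    (f : X →* Om) (hf : Function.Injective f) (hX : ∀ x, code (f x) ∈ lS)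
    (hsurj : ∀ c ∈ lS, ∃ x, code (f x) = c) : IsSchmidtPQ 2 7 X := by
  have hinj : Function.Injective fun x => code (f x) := code_inj.comp hf
  have hcode : ∀ y : X, code (f y) = onec ↔ y = 1 := by
    intro y
    rw [← code_one, ← map_one f]
    exact ⟨fun h => hf (code_inj h), fun h => by rw [h]⟩
  have hcard : Nat.card X = 56 := card_of_codes S_nodup X _ hinj hX hsurj
  let V : Subgroup X := (sub lV closed_V).comap f
  have memV : ∀ x : X, x ∈ V ↔ code (f x) ∈ lV := fun x => Iff.rfl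
  have hVsurj : ∀ c ∈ lV, ∃ x, code (f x) = c := by
    intro c hc
    have h := V_sub
    simp only [List.all_eq_true, List.contains_iff_mem] at h
    exact hsurj c (h c hc)
  have hVcard : Nat.card V = 8 :=
    card_of_codes V_nodup V (fun x => code (f x.1)) (fun x y h => Subtype.ext (hinj h))
      (fun x => x.2) (fun c hc => by
        obtain ⟨x, rfl⟩ := hVsurj c hc
        exact ⟨⟨x, hc⟩, rfl⟩)
  have hVn : V.Normal := by
    constructor
    intro v hv s
    have h := V_normal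
    simp only [List.all_eq_true, List.any_eq_true, beq_iff_eq] at h
    obtain ⟨w, hw, hsw⟩ := h _ (hX s) _ ((memV v).mp hv)
    obtain ⟨w, rfl⟩ := hVsurj w hw
    simp only [← code_mul, ← map_mul] at hsw
    have := hinj hsw
    rw [this, mul_inv_cancel_right]
    exact hw
  refine ⟨⟨?_, ?_⟩, ?_, ?_⟩
  · intro hnil
    have : Nontrivial X := by
      rw [← Finite.one_lt_card_iff_nontrivial, hcard]; norm_num
    apply Group.IsNilpotent.center_ne_bot (G := X)
    rw [eq_bot_iff]
    intro z hz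
    have h := S_center
    simp only [List.all_eq_true, List.any_eq_true, Bool.or_eq_true, beq_iff_eq, bne_iff_ne] at h
    rcases h _ (hX z) with h1 | ⟨t, ht, h1⟩
    · exact (hcode z).mp h1
    · obtain ⟨t, rfl⟩ := hsurj t ht
      exfalso
      apply h1
      simp only [← code_mul, ← map_mul]
      rw [Subgroup.mem_center_iff.mp hz t]
  · intro T hT
    have hcomm : ∀ s t : T, s * t = t * s := by
      by_contra hcon
      push Not at hcon
      obtain ⟨s, t, hst⟩ := hcon
      have hst' : (s : X) * t ≠ t * s := fun h => hst (Subtype.ext h)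
      apply hT
      have h := S_commutator
      simp only [List.all_eq_true, List.any_eq_true, beq_iff_eq] at h
      obtain ⟨w, hw, hsw⟩ := h _ (hX s) _ (hX t)
      obtain ⟨v, rfl⟩ := hVsurj w hw
      simp only [← code_mul, ← map_mul] at hsw
      have hv := hinj hsw
      have hv1 : v ≠ 1 := by rintro rfl; exact hst' (by simpa using hv)
      have hvT : v ∈ T := by
        have : v = (s : X) * t * ((t : X) * s)⁻¹ := by rw [hv]; group
        rw [this]
        exact mul_mem (mul_mem s.2 t.2) (inv_mem (mul_mem t.2 s.2))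
      have hx : ∃ x ∈ T, code (f x) ∉ lV := by
        by_contra hcon
        push Not at hcon
        have h := V_comm
        simp only [List.all_eq_true, beq_iff_eq] at h
        have := h _ (hcon s s.2) _ (hcon t t.2)
        simp only [← code_mul, ← map_mul] at this
        exact hst' (hinj this)
      obtain ⟨x, hxT, hxV⟩ := hx
      have hVT : ∀ u : X, code (f u) ∈ lV → u ∈ T := by
        intro u hu
        have h := S_gen1
        simp only [List.all_eq_true, List.any_eq_true, Bool.or_eq_true, beq_iff_eq,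
          List.contains_iff_mem] at h
        rcases h _ (hX x) with h1 | h1
        · exact absurd h1 hxV
        rcases h1 _ hw with h2 | h2
        · exact absurd ((hcode v).mp h2) hv1
        rcases h2 _ hu with h3 | ⟨i, -, h3⟩
        · rw [(hcode u).mp h3]; exact one_mem _
        simp only [← code_pow, ← map_pow, ← code_mul, ← map_mul] at h3
        have h4 := hinj h3
        have : u = x ^ i * v * (x ^ i)⁻¹ := by rw [h4]; group
        rw [this]
        exact mul_mem (mul_mem (pow_mem hxT i) hvT) (inv_mem (pow_mem hxT i))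
      rw [eq_top_iff]
      intro y _
      have h := S_gen2
      simp only [List.all_eq_true, List.any_eq_true, Bool.or_eq_true, beq_iff_eq,
        List.contains_iff_mem] at h
      rcases h _ (hX x) with h1 | h1
      · exact absurd h1 hxV
      obtain ⟨i, -, u, hu, h2⟩ := h1 _ (hX y)
      obtain ⟨u, rfl⟩ := hVsurj u hu
      simp only [← code_pow, ← map_pow, ← code_mul, ← map_mul] at h2
      rw [hinj h2]
      exact mul_mem (hVT u hu) (pow_mem hxT i)
    let : CommGroup T := { (inferInstance : Group T) with mul_comm := hcomm }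
    exact CommGroup.isNilpotent
  · rw [hcard]; decide +kernel
  · have : Fact (Nat.Prime 2) := ⟨by norm_num⟩
    refine ⟨Sylow.ofCard V ?_, hVn⟩
    rw [hVcard, hcard]
    have : (56 : ℕ).factorization 2 = 3 := by
      rw [show (56 : ℕ) = 2 ^ 3 * 7 by norm_num,
        Nat.factorization_mul (by norm_num) (by norm_num), Nat.factorization_pow,
        Nat.Prime.factorization (show Nat.Prime 7 by norm_num),
        Nat.Prime.factorization (show Nat.Prime 2 by norm_num)]
      simp
    rw [this]; norm_num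

end Pool.Agent.Lib.MP_19cc1b_al
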